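import Pool.Agent.Helper70.GUM.St1

/-! # Project GUM, module CMP: the composition law of the operators `XR` and `XL` -/

set_option autoImplicit false

namespace Pool.Agent.Helper86.GUM

open Pool.Agent.Helper70.GUM Module OG UN
open scoped Classical

universe u v w z

section algebra

variable {k : Type u} {F : Type v} [Field k] [Field F] [Algebra k F] {σ : F ≃ₐ[k] F}

private theorem nz_CMP (hσ : QE σ) {η : F} (h : η + σ η = 0) (b : F) :
    η * (b * σ b) + σ (η * (b * σ b)) = 0 := by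
  rw [map_mul, map_mul, hσ.inv]
  linear_combination (b * σ b) * h

private theorem eta_CMP {ε ε' : F} (h : ε + σ ε = 1) (h' : ε' + σ ε' = 1) :
    (ε + ε' - 1) + σ (ε + ε' - 1) = 0 := by
  rw [map_sub, map_add, map_one]
  linear_combination h + h'

private theorem ew_CMP (hσ : QE σ) (t a : F) :
    (t * σ a - a * σ t) + σ (t * σ a - a * σ t) = 0 := by
  rw [map_sub, map_mul, map_mul, hσ.inv, hσ.inv]
  ring

private theorem ee_CMP {ε ε' : F} (h : ε + σ ε = 1) (h' : ε' + σ ε' = 1) (hη : ε + ε' - 1 ≠ 0) :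
    ε * ε' / (ε + ε' - 1) + σ (ε * ε' / (ε + ε' - 1)) = 1 := by
  have e1 : σ ε = 1 - ε := by linear_combination h
  have e2 : σ ε' = 1 - ε' := by linear_combination h'
  have e3 : σ (ε + ε' - 1) = -(ε + ε' - 1) := by linear_combination eta_CMP h h'
  rw [map_div₀, e3, map_mul, e1, e2]
  field_simp
  ring

private theorem prod1_CMP (hσ : QE σ) {ε ε' : F} (h : ε + σ ε = 1) (h' : ε' + σ ε' = 1)
    (hη : ε + ε' - 1 ≠ 0) (a s : F) :
    sc hσ ε a * sc hσ ε' (s - a) =
      cen hσ ((ε + ε' - 1) * ((a - (ε' - 1) / (ε + ε' - 1) * s)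
        * σ (a - (ε' - 1) / (ε + ε' - 1) * s))) * sc hσ (ε * ε' / (ε + ε' - 1)) s := by
  have e2 : σ ε' = 1 - ε' := by linear_combination h'
  have e3 : σ (ε + ε' - 1) = -(ε + ε' - 1) := by linear_combination eta_CMP h h'
  have hz := nz_CMP hσ (eta_CMP h h') (a - (ε' - 1) / (ε + ε' - 1) * s)
  have h2 := ee_CMP h h' hη
  have A1 : (ε + ε' - 1) * ((ε' - 1) / (ε + ε' - 1)) = ε' - 1 := by field_simp
  have A2 : (ε + ε' - 1) * σ ((ε' - 1) / (ε + ε' - 1)) = ε' := by
    rw [map_div₀, e3, map_sub, map_one, e2]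
    field_simp
    ring
  have A3 : ε * ε' / (ε + ε' - 1) + (ε' - 1) * σ ((ε' - 1) / (ε + ε' - 1)) = ε' := by
    rw [map_div₀, e3, map_sub, map_one, e2]
    field_simp
    ring
  apply Hei.ext
  · rw [Hei.mul_a, Hei.mul_a, sc_a h, sc_a h', cen_a hz, sc_a h2]
    ring
  · rw [Hei.mul_c, Hei.mul_c, sc_c h, sc_c h', sc_a h, sc_a h', cen_c hz, cen_a hz, sc_c h2,
      sc_a h2, map_zero, map_sub, map_sub, map_mul]
    linear_combination (a * σ s) * A2 + (s * σ a) * A1 - (s * σ s) * A3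
      - (s * σ s * σ ((ε' - 1) / (ε + ε' - 1))) * A1

private theorem prod0_CMP (hσ : QE σ) {ε ε' : F} (h : ε + σ ε = 1) (h' : ε' + σ ε' = 1)
    (hη : ε + ε' = 1) (a s : F) :
    sc hσ ε a * sc hσ ε' (s - a) =
      cen hσ ((ε * s) * σ a - a * σ (ε * s)) * sc hσ ε' s := by
  have e1 : σ ε = 1 - ε := by linear_combination h
  have hz := ew_CMP hσ (ε * s) a
  apply Hei.ext
  · rw [Hei.mul_a, Hei.mul_a, sc_a h, sc_a h', cen_a hz, sc_a h']
    ring
  · rw [Hei.mul_c, Hei.mul_c, sc_c h, sc_c h', sc_a h, sc_a h', cen_c hz, cen_a hz, sc_c h',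
      sc_a h', map_zero, map_sub, map_mul, e1]
    linear_combination (a * σ a - s * σ a - a * σ s) * hη

private theorem sc_zero_CMP (hσ : QE σ) {ε : F} (h : ε + σ ε = 1) : sc hσ ε 0 = 1 := by
  apply Hei.ext
  · rw [sc_a h, Hei.one_a]
  · rw [sc_c h, Hei.one_c, zero_mul, mul_zero]

end algebra

section sums

variable {k : Type u} {F : Type v} {R : Type w} {K : Type z} [Field k] [Field F] [Fintype F]
  [Algebra k F] {σ : F ≃ₐ[k] F} [CommRing R] [Field K] [Algebra R K]

private theorem shift_CMP (Φ : F → F → K) :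
    ∑ a : F, ∑ b : F, Φ a b = ∑ s : F, ∑ a : F, Φ a (s - a) := by
  rw [Finset.sum_comm (f := fun s a => Φ a (s - a))]
  exact Finset.sum_congr rfl fun a _ => ((Equiv.subRight a).sum_comp (fun b => Φ a b)).symm

private theorem core1_CMP (hσ : QE σ) {ε ε' : F} (h : ε + σ ε = 1) (h' : ε' + σ ε' = 1)
    (hη : ε + ε' - 1 ≠ 0) (T : Hei hσ → K) (ψ : F → R) (c : R)
    (hT : ∀ (z : F) (g : Hei hσ), z + σ z = 0 → T (cen hσ z * g) = ψ z • T g)
    (hψ : ∑ a : F, ψ ((ε + ε' - 1) * (a * σ a)) = c) :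
    ∑ a : F, ∑ b : F, T (sc hσ ε a * sc hσ ε' b) =
      c • ∑ s : F, T (sc hσ (ε * ε' / (ε + ε' - 1)) s) := by
  rw [shift_CMP, Finset.smul_sum]
  refine Finset.sum_congr rfl fun s _ => ?_
  have e1 : ∀ a : F, T (sc hσ ε a * sc hσ ε' (s - a)) =
      ψ ((ε + ε' - 1) * ((a - (ε' - 1) / (ε + ε' - 1) * s)
        * σ (a - (ε' - 1) / (ε + ε' - 1) * s))) • T (sc hσ (ε * ε' / (ε + ε' - 1)) s) := by
    intro a
    rw [prod1_CMP hσ h h' hη, hT _ _ (nz_CMP hσ (eta_CMP h h') _)]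
  rw [Finset.sum_congr rfl fun a _ => e1 a, ← Finset.sum_smul]
  congr 1
  rw [← hψ]
  exact (Equiv.subRight ((ε' - 1) / (ε + ε' - 1) * s)).sum_comp
    (fun a => ψ ((ε + ε' - 1) * (a * σ a)))

private theorem core0_CMP (hσ : QE σ) {ε ε' : F} (h : ε + σ ε = 1) (h' : ε' + σ ε' = 1)
    (hη : ε + ε' = 1) (T : Hei hσ → K) (ψ : F → R)
    (hT : ∀ (z : F) (g : Hei hσ), z + σ z = 0 → T (cen hσ z * g) = ψ z • T g)
    (h0 : ψ 0 = 1) (hψ : ∀ s : F, s ≠ 0 → ∑ a : F, ψ (s * σ a - a * σ s) = 0) :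
    ∑ a : F, ∑ b : F, T (sc hσ ε a * sc hσ ε' b) = ((Fintype.card F : ℕ) : R) • T 1 := by
  have hε : ε ≠ 0 := by
    intro h0
    rw [h0, map_zero, add_zero] at h
    exact zero_ne_one h
  rw [shift_CMP]
  have e1 : ∀ s a : F, T (sc hσ ε a * sc hσ ε' (s - a)) =
      ψ ((ε * s) * σ a - a * σ (ε * s)) • T (sc hσ ε' s) := by
    intro s a
    rw [prod0_CMP hσ h h' hη, hT _ _ (ew_CMP hσ _ _)]
  rw [Finset.sum_eq_single (0 : F)]
  · rw [Finset.sum_congr rfl fun a _ => e1 0 a]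
    simp only [mul_zero, zero_mul, map_zero, sub_zero, h0, one_smul, sc_zero_CMP hσ h',
      Finset.sum_const, Finset.card_univ]
    rw [Nat.cast_smul_eq_nsmul]
  · intro s _ hs
    rw [Finset.sum_congr rfl fun a _ => e1 s a, ← Finset.sum_smul,
      hψ (ε * s) (mul_ne_zero hε hs), zero_smul]
  · intro h
    exact absurd (Finset.mem_univ _) h

end sums

theorem hCMP : StCMP.{u, v, w, z} := by
  intro k F R K _ _ _ _ _ σ _ _ _ _ hσ χ r x hC hS hB ε ε' h h' f hf
  have hr : r * ((Nat.card k : ℕ) : R) = 1 := hC.inv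
  -- the two translated functions
  have hTR : ∀ g : Hei hσ, ∀ (z : F) (y : Hei hσ), z + σ z = 0 →
      f (g * (cen hσ z * y)) = χ (-z) • f (g * y) := fun g z y hz => hB.fcen f hf g y z hz
  have hTL : ∀ g : Hei hσ, ∀ (z : F) (y : Hei hσ), z + σ z = 0 →
      f ((cen hσ z * y)⁻¹ * g) = χ z • f (y⁻¹ * g) := by
    intro g z y hz
    have hz' : -z + σ (-z) = 0 := by rw [map_neg]; linear_combination -hz
    rw [mul_inv_rev, hB.cinv z hz, mul_assoc, hB.fcen f hf _ _ _ hz', neg_neg]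
  have eR : ∀ g : Hei hσ, XR r ε (XR r ε' f) g =
      (r * r) • ∑ a : F, ∑ b : F, f (g * (sc hσ ε a * sc hσ ε' b)) := by
    intro g
    rw [XR_apply]
    simp only [XR_apply, Finset.sum_neg_distrib, smul_neg, neg_neg, ← Finset.smul_sum, smul_smul,
      mul_assoc]
  have eL : ∀ g : Hei hσ, XL r ε (XL r ε' f) g =
      (r * r) • ∑ a : F, ∑ b : F, f ((sc hσ ε a * sc hσ ε' b)⁻¹ * g) := by
    intro g
    rw [XL_apply]
    simp only [XL_apply, Finset.sum_neg_distrib, smul_neg, neg_neg, ← Finset.smul_sum, smul_smul,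
      mul_assoc, mul_inv_rev]
  constructor
  · intro hne
    have hη : ε + ε' - 1 ≠ 0 := sub_ne_zero.2 hne
    have ht := eta_CMP h h'
    have ht' : -(ε + ε' - 1) + σ (-(ε + ε' - 1)) = 0 := by rw [map_neg]; linear_combination -ht
    have rr : r * r * (-((Nat.card k : ℕ) : R)) = -r := by linear_combination (-r) * hr
    constructor
    · funext g
      rw [eR, core1_CMP hσ h h' hη (fun y => f (g * y)) (fun z => χ (-z)) _ (hTR g)
        (by simpa only [neg_mul] using hS.gauss _ ht' (neg_ne_zero.2 hη)), smul_smul, rr, XR_apply,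
        neg_smul]
    · funext g
      rw [eL, core1_CMP hσ h h' hη (fun y => f (y⁻¹ * g)) (fun z => χ z) _ (hTL g)
        (hS.gauss _ ht hη), smul_smul, rr, XL_apply, neg_smul]
  · intro he
    have rr : r * r * ((Fintype.card F : ℕ) : R) = 1 := by
      rw [hS.cardF]
      push_cast
      linear_combination (r * ((Nat.card k : ℕ) : R) + 1) * hr
    constructor
    · funext g
      rw [eR, core0_CMP hσ h h' he (fun y => f (g * y)) (fun z => χ (-z)) (hTR g)
        (by simp) (fun s hs => by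
          rw [← hS.sw (-s) (neg_ne_zero.2 hs)]
          refine Finset.sum_congr rfl fun a _ => ?_
          congr 1
          rw [map_neg]
          ring), smul_smul, rr, one_smul]
      simp only [mul_one]
    · funext g
      rw [eL, core0_CMP hσ h h' he (fun y => f (y⁻¹ * g)) (fun z => χ z) (hTL g)
        (by simp) (fun s hs => hS.sw s hs), smul_smul, rr, one_smul]
      simp only [inv_one, one_mul]

end Pool.Agent.Helper86.GUM
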