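import Pool.Agent.Helper70.GUM.St3

/-! # Project GUM, module WTI: a hermitian form in two variables over a finite field has a zero -/

set_option autoImplicit false

namespace Pool.Agent.Helper86.GUT

open Module _root_.GUM Pool.Agent.Helper70.GUM Pool.Agent.Helper70.GUT
open UN (QE)

universe u v w z y

variable {k : Type u} {F : Type v} [Field k] [Field F] [Algebra k F] {σ : F ≃ₐ[k] F}

/-- every linear functional is `y ↦ Tr (μ y)` -/
private theorem rep_WTI (hσ : QE σ) (φ : F →ₗ[k] k) :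
    ∃ μ : F, ∀ y : F, algebraMap k F (φ y) = μ * y + σ μ * σ y := by
  obtain ⟨θ, hθ⟩ := hσ.ne
  have hd : θ - σ θ ≠ 0 := sub_ne_zero.2 (Ne.symm hθ)
  have hd' : σ θ - θ ≠ 0 := sub_ne_zero.2 hθ
  refine ⟨(algebraMap k F (φ θ) - σ θ * algebraMap k F (φ 1)) / (θ - σ θ), fun y => ?_⟩
  have e1 : σ ((algebraMap k F (φ θ) - σ θ * algebraMap k F (φ 1)) / (θ - σ θ)) =
      (algebraMap k F (φ θ) - θ * algebraMap k F (φ 1)) / (σ θ - θ) := by
    rw [map_div₀, map_sub, map_sub, map_mul, hσ.inv, AlgEquiv.commutes, AlgEquiv.commutes]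
  rw [e1]
  -- coordinates of `y`
  have hb : σ ((y - σ y) / (θ - σ θ)) = (y - σ y) / (θ - σ θ) := by
    rw [map_div₀, map_sub, map_sub, hσ.inv, hσ.inv]
    rw [div_eq_div_iff hd' hd]
    ring
  obtain ⟨b, hb'⟩ := hσ.fix _ hb
  have hbe : algebraMap k F b * (θ - σ θ) = y - σ y := by
    rw [hb', div_mul_cancel₀ _ hd]
  have ha : σ (y - algebraMap k F b * θ) = y - algebraMap k F b * θ := by
    rw [map_sub, map_mul, AlgEquiv.commutes]
    linear_combination hbe
  obtain ⟨a, ha'⟩ := hσ.fix _ ha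
  have hy : y = a • (1 : F) + b • θ := by
    rw [Algebra.smul_def, Algebra.smul_def, ha']
    ring
  have hφ : φ y = a * φ 1 + b * φ θ := by
    conv_lhs => rw [hy]
    rw [map_add, map_smul, map_smul, smul_eq_mul, smul_eq_mul]
  have hσy : σ y = y - algebraMap k F b * (θ - σ θ) := by linear_combination hbe
  have hya : y = algebraMap k F a + algebraMap k F b * θ := by linear_combination -ha'
  rw [hφ, map_add, map_mul, map_mul, hσy, hya]
  field_simp
  ring

theorem hWTI : StWTI.{u, v} := by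
  intro k F _ _ _ _ σ hσ l
  obtain ⟨t, ht⟩ := hσ.ne
  obtain ⟨τ, hτ⟩ : ∃ τ : F, τ = t - σ t := ⟨_, rfl⟩
  have hτ0 : τ ≠ 0 := by rw [hτ]; exact sub_ne_zero.2 (Ne.symm ht)
  have hτs : τ + σ τ = 0 := by
    rw [hτ, map_sub, hσ.inv]
    ring
  -- it is enough to treat `τ`
  suffices hmain : ∃ x y : F, (x ≠ 0 ∨ y ≠ 0) ∧ l (vt hσ τ x y hτs) = 0 by
    obtain ⟨x, y, hxy, h0⟩ := hmain
    refine ⟨x, y, hxy, fun c hc => ?_⟩
    have h1 : σ (c / τ) = c / τ := by
      have h2 : σ c = -c := by linear_combination hc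
      have h3 : σ τ = -τ := by linear_combination hτs
      rw [map_div₀, h2, h3, neg_div_neg_eq]
    obtain ⟨n, hn⟩ := hσ.fix _ h1
    have hcn : c = algebraMap k F n * τ := by rw [hn, div_mul_cancel₀ _ hτ0]
    have h4 : vt hσ c x y hc = n • vt hσ τ x y hτs := by
      apply Subtype.ext
      rw [Submodule.coe_smul]
      show (c * (x * σ x), c * (x * σ y), c * (y * σ y)) =
        n • (τ * (x * σ x), τ * (x * σ y), τ * (y * σ y))
      rw [Prod.smul_mk, Prod.smul_mk, Algebra.smul_def, Algebra.smul_def, Algebra.smul_def, hcn,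
        mul_assoc, mul_assoc, mul_assoc]
    rw [h4, map_smul, h0, smul_zero]
  -- the three coordinates
  obtain ⟨e1, he1⟩ : ∃ e : ↥(VV σ), e.1 = (τ, 0, 0) := ⟨⟨(τ, 0, 0), by
    rw [mem_VV]; exact ⟨hτs, by simp⟩⟩, rfl⟩
  obtain ⟨e3, he3⟩ : ∃ e : ↥(VV σ), e.1 = (0, 0, τ) := ⟨⟨(0, 0, τ), by
    rw [mem_VV]; exact ⟨by simp, hτs⟩⟩, rfl⟩
  have hm : ∀ w : F, ((0 : F), w, (0 : F)) ∈ VV σ := fun w => by
    rw [mem_VV]; constructor <;> simp
  let φ : F →ₗ[k] k :=
    { toFun := fun y => l ⟨((0 : F), τ * σ y, (0 : F)), hm _⟩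
      map_add' := by
        intro a b
        rw [← map_add]
        congr 1
        apply Subtype.ext
        rw [Submodule.coe_add]
        simp only [Prod.mk_add_mk, add_zero, map_add, mul_add]
      map_smul' := by
        intro c a
        rw [RingHom.id_apply, ← map_smul]
        congr 1
        apply Subtype.ext
        rw [Submodule.coe_smul]
        simp only [Prod.smul_mk, smul_zero, map_smul, mul_smul_comm] }
  have hφ : ∀ y, φ y = l ⟨((0 : F), τ * σ y, (0 : F)), hm _⟩ := fun y => rfl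
  by_cases hC : l e3 = 0
  · refine ⟨0, 1, Or.inr one_ne_zero, ?_⟩
    have : vt hσ τ 0 1 hτs = e3 := by
      apply Subtype.ext
      rw [he3]
      show (τ * ((0 : F) * σ 0), τ * ((0 : F) * σ 1), τ * ((1 : F) * σ 1)) = _
      simp
    rw [this, hC]
  · obtain ⟨μ, hμ⟩ := rep_WTI hσ φ
    have hC' : algebraMap k F (l e3) ≠ 0 := by
      intro h
      exact hC ((map_eq_zero (algebraMap k F)).1 h)
    have hNμ : σ (μ * σ μ) = μ * σ μ := by rw [map_mul, hσ.inv]; ring
    obtain ⟨nμ, hnμ⟩ := hσ.fix _ hNμ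
    obtain ⟨x₀, hx₀⟩ := hσ.nrm ((nμ / l e3 - l e1) / l e3)
    obtain ⟨y, hy⟩ : ∃ y : F, y = x₀ - σ μ / algebraMap k F (l e3) := ⟨_, rfl⟩
    have hNy : σ (y * σ y) = y * σ y := by rw [map_mul, hσ.inv]; ring
    obtain ⟨n, hn⟩ := hσ.fix _ hNy
    refine ⟨1, y, Or.inl one_ne_zero, ?_⟩
    have h5 : vt hσ τ 1 y hτs = e1 + ⟨((0 : F), τ * σ y, (0 : F)), hm _⟩ + n • e3 := by
      apply Subtype.ext
      rw [Submodule.coe_add, Submodule.coe_add, Submodule.coe_smul, he1, he3]
      show (τ * ((1 : F) * σ 1), τ * ((1 : F) * σ y), τ * (y * σ y)) = _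
      simp only [Prod.mk_add_mk, Prod.smul_mk, smul_zero, map_one, mul_one, one_mul, add_zero,
        zero_add]
      rw [Algebra.smul_def, hn, mul_comm τ (y * σ y)]
    have h6 : l (vt hσ τ 1 y hτs) = l e1 + φ y + n * l e3 := by
      rw [h5, map_add, map_add, map_smul, smul_eq_mul, hφ]
    rw [h6]
    apply (algebraMap k F).injective
    rw [map_add, map_add, map_mul, hμ, hn, map_zero]
    have h7 : σ y = σ x₀ - μ / algebraMap k F (l e3) := by
      rw [hy, map_sub, map_div₀, hσ.inv, AlgEquiv.commutes]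
    rw [map_div₀, map_sub, map_div₀, hnμ] at hx₀
    have h8 : x₀ * σ x₀ * algebraMap k F (l e3) ^ 2 =
        μ * σ μ - algebraMap k F (l e1) * algebraMap k F (l e3) := by
      rw [hx₀]
      field_simp
    apply mul_right_cancel₀ hC'
    rw [h7, hy, zero_mul]
    field_simp
    linear_combination h8

end Pool.Agent.Helper86.GUT
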